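import Pool.Agent.H7.Heil.Tools
import Pool.Agent.H98.GL.Comm
import Pool.Agent.H99.Sp.Prod

/-!
Heilbronn class functions: twists by linear characters, central decomposition, quotients,
the solvable kernel.
-/

open Finset

open scoped commutatorElement

namespace Pool.Agent.H42.Hb

open Pool.Agent.H7.HB Pool.Agent.H98.GL

variable {G : Type} [Group G] {θ : G → ℂ}

/-- constant on the cosets of a subgroup -/
def Cst (θ : G → ℂ) (N : Subgroup G) : Prop := ∀ x y : G, x * y⁻¹ ∈ N → θ x = θ y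

theorem norm_le [Finite G] (h : Heil θ) {r : ℕ} (hr : θ 1 = r) (g : G) : ‖θ g‖ ≤ r := by
  classical
  let A : Subgroup G := Subgroup.zpowers g
  let _ : CommGroup A := commGrp A (by
    rintro _ ⟨i, rfl⟩ _ ⟨j, rfl⟩
    simp only
    rw [← zpow_add, ← zpow_add, add_comm])
  let _ : Fintype A := Fintype.ofFinite A
  have h1 := expand h A.subtype ⟨g, Subgroup.mem_zpowers g⟩
  have h2 := sum_mult h A.subtype
  rw [hr] at h2
  have h3 : (r : ℝ) = ∑ κ : A →* ℂˣ, (mult h A.subtype κ : ℝ) := by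
    exact_mod_cast h2
  have h4 : θ g = ∑ κ : A →* ℂˣ, (mult h A.subtype κ : ℂ)
      * ((κ ⟨g, Subgroup.mem_zpowers g⟩ : ℂˣ) : ℂ) := h1
  rw [h4, h3]
  refine (norm_sum_le _ _).trans (Finset.sum_le_sum fun κ _ => ?_)
  rw [norm_mul, norm_char, mul_one, Complex.norm_natCast]

theorem mul_char (h : Heil θ) (μ : G →* ℂˣ) : Heil (fun x => θ x * ((μ x : ℂˣ) : ℂ)) where
  conj g x := by
    rw [h.conj, map_mul, map_mul, map_inv, mul_comm (μ g), mul_inv_cancel_right]
  coeff K _ _ φ ψ := by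
    obtain ⟨m, hm⟩ := h.coeff K φ (ψ * (μ.comp φ)⁻¹)
    refine ⟨m, ?_⟩
    rw [← hm]
    refine Finset.sum_congr rfl fun k _ => ?_
    rw [MonoidHom.mul_apply, MonoidHom.inv_apply, MonoidHom.comp_apply, mul_inv, inv_inv,
      Units.val_mul]
    ring

/-- decomposition along a central subgroup -/
theorem heil_coef {A : Type} [CommGroup A] [Fintype A] (h : Heil θ) (i : A →* G)
    (hi : ∀ a x, i a * x = x * i a) (κ : A →* ℂˣ) : Heil (fun x => coef (fun a => θ (i a * x)) κ)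
    where
  conj g x := by
    unfold coef
    simp only
    congr 1
    refine Finset.sum_congr rfl fun a _ => ?_
    have h1 : i a * (g * x * g⁻¹) = g * (i a * x) * g⁻¹ := by
      rw [← mul_assoc, ← mul_assoc, hi a g]
      group
    rw [h1, h.conj]
  coeff K _ _ φ ψ := by
    let Φ : A × K →* G :=
      { toFun := fun p => i p.1 * φ p.2
        map_one' := by simp
        map_mul' := by
          intro p q
          simp only [Prod.fst_mul, Prod.snd_mul, map_mul]
          rw [mul_assoc (i p.1), mul_assoc (i p.1), ← mul_assoc (i q.1), hi q.1 (φ p.2)]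
          group }
    let Ψ : A × K →* ℂˣ := κ.coprod ψ
    obtain ⟨m, hm⟩ := h.coeff (A × K) Φ Ψ
    refine ⟨m, ?_⟩
    have hA : (Fintype.card A : ℂ) ≠ 0 := card_ne_zero'
    rw [Fintype.sum_prod_type, Fintype.card_prod] at hm
    have h1 : ∀ k, coef (fun a => θ (i a * φ k)) κ * (((ψ k)⁻¹ : ℂˣ) : ℂ)
        = (∑ a : A, θ (Φ (a, k)) * (((Ψ (a, k))⁻¹ : ℂˣ) : ℂ)) / (Fintype.card A : ℂ) := by
      intro k
      unfold coef
      rw [div_mul_eq_mul_div, Finset.sum_mul]
      congr 1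
      refine Finset.sum_congr rfl fun a _ => ?_
      have h2 : (((Ψ (a, k))⁻¹ : ℂˣ) : ℂ) = (((κ a)⁻¹ : ℂˣ) : ℂ) * (((ψ k)⁻¹ : ℂˣ) : ℂ) := by
        rw [← Units.val_mul, ← mul_inv]
        rfl
      rw [h2, mul_assoc]
      rfl
    rw [Finset.sum_congr rfl fun k _ => h1 k, ← Finset.sum_div, Finset.sum_comm, hm]
    push_cast
    field_simp

theorem coef_translate {A : Type} [CommGroup A] [Fintype A] (f : A → ℂ) (κ : A →* ℂˣ) (b : A) :
    coef (fun a => f (a * b)) κ = ((κ b : ℂˣ) : ℂ) * coef f κ := by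
  unfold coef
  rw [mul_div_assoc', Finset.mul_sum]
  congr 1
  conv_rhs => rw [← Equiv.sum_comp (Equiv.mulRight b)]
  refine Finset.sum_congr rfl fun a _ => ?_
  rw [Equiv.coe_mulRight, map_mul, mul_inv, Units.val_mul]
  have : ((κ b : ℂˣ) : ℂ) * (((κ b)⁻¹ : ℂˣ) : ℂ) = 1 := by
    rw [← Units.val_mul, mul_inv_cancel, Units.val_one]
  linear_combination (-(f (a * b) * (((κ a)⁻¹ : ℂˣ) : ℂ))) * this

theorem exists_quot [Finite G] (h : Heil θ) (M : Subgroup G) [M.Normal] (hM : Cst θ M) :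
    ∃ θ' : G ⧸ M → ℂ, Heil θ' ∧ ∀ g : G, θ' (g : G ⧸ M) = θ g := by
  have key : ∀ g : G, θ (Quotient.out (g : G ⧸ M)) = θ g := by
    intro g
    apply hM
    have h1 : ((Quotient.out (g : G ⧸ M) : G) : G ⧸ M) = (g : G ⧸ M) := QuotientGroup.out_eq' _
    rw [← QuotientGroup.eq_one_iff, QuotientGroup.mk_mul, QuotientGroup.mk_inv, h1,
      mul_inv_cancel]
  refine ⟨fun q => θ q.out, ?_, key⟩
  exact Pool.Agent.H99.Sp.heil_quot h (QuotientGroup.mk' M) (QuotientGroup.mk'_surjective M)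
    (θ' := fun q => θ q.out) key

theorem cst_of_quot {M N : Subgroup G} [M.Normal] [N.Normal] {θ' : G ⧸ M → ℂ}
    (h1 : ∀ g : G, θ' (g : G ⧸ M) = θ g) (h2 : Cst θ' (N.map (QuotientGroup.mk' M))) :
    Cst θ N := by
  intro x y hxy
  rw [← h1, ← h1]
  apply h2
  exact ⟨x * y⁻¹, hxy, rfl⟩

theorem ker_map {M N : Subgroup G} [M.Normal] {θ' : G ⧸ M → ℂ}
    (h1 : ∀ g : G, θ' (g : G ⧸ M) = θ g) (h2 : ∀ x ∈ N, θ x = θ 1) :
    ∀ x ∈ N.map (QuotientGroup.mk' M), θ' x = θ' 1 := by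
  rintro _ ⟨x, hx, rfl⟩
  have : θ' ((QuotientGroup.mk' M) x) = θ x := h1 x
  rw [this, h2 x hx, ← h1 1]
  rfl

/-- the kernel theorem for solvable normal subgroups -/
theorem solv (n : ℕ) : ∀ (G : Type) [Group G] [Finite G] (θ : G → ℂ) (_ : Heil θ)
    (N : Subgroup G) [N.Normal] [Group.IsSolvable N], Nat.card N ≤ n → (∀ x ∈ N, θ x = θ 1) →
    Cst θ N := by
  induction n with
  | zero =>
    intro G _ _ θ _ N _ _ hn
    have : 0 < Nat.card N := Nat.card_pos
    omega
  | succ n ih =>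
    intro G _ _ θ h N _ _ hn hN
    by_cases hb : N = ⊥
    · intro x y hxy
      rw [hb, Subgroup.mem_bot, mul_inv_eq_one] at hxy
      rw [hxy]
    have hlt : ⁅N, N⁆ < N := by
      have hb' : Nontrivial N := (Subgroup.nontrivial_iff_ne_bot N).2 hb
      have h1 : ⁅N, N⁆ = (commutator N).map N.subtype := by
        rw [commutator_def, Subgroup.map_commutator, ← MonoidHom.range_eq_map, N.range_subtype]
      rw [h1]
      conv_rhs => rw [← N.range_subtype, MonoidHom.range_eq_map]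
      rw [Subgroup.map_subtype_lt_map_subtype]
      exact Group.IsSolvable.commutator_lt_top_of_nontrivial _
    have hsolv : Group.IsSolvable (⁅N, N⁆ : Subgroup G) :=
      Group.isSolvable_of_isSolvable_injective (Subgroup.inclusion_injective hlt.le)
    have hcard : Nat.card (⁅N, N⁆ : Subgroup G) < Nat.card N := by
      have := Set.Finite.card_lt_card (Set.toFinite (N : Set G)) hlt
      exact this
    have h1 : Cst θ ⁅N, N⁆ := ih G θ h ⁅N, N⁆ (by omega) (fun x hx => hN x (hlt.le hx))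
    obtain ⟨θ', h2, h3⟩ := exists_quot h ⁅N, N⁆ h1
    refine cst_of_quot (M := ⁅N, N⁆) h3 ?_
    have hk := ker_map (M := ⁅N, N⁆) (N := N) h3 hN
    have hc : IsComm (N.map (QuotientGroup.mk' ⁅N, N⁆)) := by
      rintro _ ⟨x, hx, rfl⟩ _ ⟨y, hy, rfl⟩
      rw [← map_mul, ← map_mul]
      have : ⁅x, y⁆ ∈ ⁅N, N⁆ := Subgroup.commutator_mem_commutator hx hy
      have h4 := (QuotientGroup.eq_one_iff (N := ⁅N, N⁆) ⁅x, y⁆).2 this
      rw [commutatorElement_def] at h4
      have h5 : (QuotientGroup.mk' ⁅N, N⁆) (x * y * x⁻¹ * y⁻¹) = 1 := h4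
      have h6 : x * y = (x * y * x⁻¹ * y⁻¹) * (y * x) := by group
      rw [h6, map_mul, h5, one_mul]
    have hnor : (N.map (QuotientGroup.mk' ⁅N, N⁆)).Normal :=
      Subgroup.Normal.map inferInstance _ (QuotientGroup.mk'_surjective _)
    intro x y hxy
    have := heil_split h2 _ hc y (fun z hz => hnor.conj_mem z hz y) _ hxy (hk _ hxy)
    rwa [inv_mul_cancel_right] at this

end Pool.Agent.H42.Hb
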