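import Pool.Agent.H42.Hb.Base

/-!
The kernel theorem for Heilbronn class functions on arbitrary finite groups.
-/

open Finset

open scoped commutatorElement

namespace Pool.Agent.H42.Hb

open Pool.Agent.H7.HB Pool.Agent.H98.GL

variable {G : Type} [Group G] {θ : G → ℂ}

/-- equality case of the triangle inequality for Heilbronn functions -/
theorem eq_of_sum_eq [Finite G] {ι : Type} [Fintype ι] (f : ι → G → ℂ) (hf : ∀ i, Heil (f i))
    (x : G) (hx : ∑ i, f i x = ∑ i, f i 1) (i : ι) : f i x = f i 1 := by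
  have hle : ∀ i, ‖f i x‖ ≤ (f i 1).re := by
    intro i
    obtain ⟨r, hr⟩ := (hf i).exists_deg
    have := norm_le (hf i) hr x
    rw [hr]
    simpa using this
  have h1 : ∀ i ∈ (Finset.univ : Finset ι), (f i x).re ≤ (f i 1).re := fun i _ =>
    (Complex.re_le_norm _).trans (hle i)
  have h2 : ∑ i, (f i x).re = ∑ i, (f i 1).re := by
    have := congrArg Complex.re hx
    rwa [Complex.re_sum, Complex.re_sum] at this
  have h3 := (Finset.sum_eq_sum_iff_of_le h1).1 h2 i (Finset.mem_univ _)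
  obtain ⟨r, hr⟩ := (hf i).exists_deg
  have h4 := hle i
  have h5 : (f i x).im = 0 := by
    have h6 := Complex.sq_norm (f i x)
    rw [Complex.normSq_apply, h3] at h6
    have h7 : ‖f i x‖ ^ 2 ≤ (f i 1).re ^ 2 := pow_le_pow_left₀ (norm_nonneg _) h4 2
    nlinarith
  apply Complex.ext h3
  rw [h5, hr]
  simp

/-- a central subgroup disjoint from the normal subgroup -/
theorem central_case [Finite G] (h : Heil θ) (N P : Subgroup G) [N.Normal]
    (hP : ∀ a ∈ P, ∀ x, a * x = x * a) (hPN : P ⊓ N = ⊥)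
    (hGN : ∀ a b : G, a * b * a⁻¹ * b⁻¹ ∈ N)
    (ih : ∀ θ' : G → ℂ, Heil θ' → Cst θ' P → (∀ x ∈ N, θ' x = θ' 1) → Cst θ' N)
    (hN : ∀ x ∈ N, θ x = θ 1) : Cst θ N := by
  classical
  let _ : CommGroup P := commGrp P (fun x hx y _ => hP x hx y)
  let _ : Fintype P := Fintype.ofFinite P
  let f : (P →* ℂˣ) → G → ℂ := fun κ x => coef (fun a : P => θ (P.subtype a * x)) κ
  have hf : ∀ κ, Heil (f κ) := fun κ => heil_coef h P.subtype (fun a x => hP a a.2 x) κ
  have hsum : ∀ x, θ x = ∑ κ, f κ x := by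
    intro x
    have := inversion (fun a : P => θ (P.subtype a * x)) 1
    simp only [map_one, one_mul, Units.val_one, mul_one] at this
    exact this
  have hfP : ∀ κ (b : P) x, f κ (b * x) = ((κ b : ℂˣ) : ℂ) * f κ x := by
    intro κ b x
    have h1 := coef_translate (fun a : P => θ (P.subtype a * x)) κ b
    rw [← h1]
    unfold f
    congr 1
    funext a
    simp [mul_assoc]
  have hfN : ∀ κ, ∀ x ∈ N, f κ x = f κ 1 := by
    intro κ x hx
    refine eq_of_sum_eq f hf x ?_ κ
    rw [← hsum, ← hsum, hN x hx]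
  -- the quotient
  let _ : CommGroup (G ⧸ N) := { (inferInstance : Group (G ⧸ N)) with
    mul_comm := by
      intro a b
      obtain ⟨a, rfl⟩ := QuotientGroup.mk'_surjective N a
      obtain ⟨b, rfl⟩ := QuotientGroup.mk'_surjective N b
      have h1 : (QuotientGroup.mk' N) (a * b * a⁻¹ * b⁻¹) = 1 :=
        (QuotientGroup.eq_one_iff _).2 (hGN a b)
      have h2 : a * b = (a * b * a⁻¹ * b⁻¹) * (b * a) := by group
      change (QuotientGroup.mk' N) a * (QuotientGroup.mk' N) b
        = (QuotientGroup.mk' N) b * (QuotientGroup.mk' N) a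
      rw [← map_mul, ← map_mul, h2, map_mul, h1, one_mul] }
  let _ : Fintype (G ⧸ N) := Fintype.ofFinite _
  let π : P →* G ⧸ N := (QuotientGroup.mk' N).comp P.subtype
  have hπ : Function.Injective π := by
    rw [injective_iff_map_eq_one]
    intro a ha
    have h1 : (a : G) ∈ N := (QuotientGroup.eq_one_iff _).1 ha
    have h2 : (a : G) ∈ P ⊓ N := ⟨a.2, h1⟩
    rw [hPN, Subgroup.mem_bot] at h2
    exact Subtype.ext h2
  have hext : ∀ κ : P →* ℂˣ, ∃ μ : G →* ℂˣ, (∀ a : P, μ a = κ a) ∧ ∀ x ∈ N, μ x = 1 := by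
    intro κ
    let e : P ≃* π.range := MonoidHom.ofInjective hπ
    obtain ⟨ν, hν⟩ := MonoidHom.domRestrict_surjective (M := ℂ) π.range
      (κ.comp e.symm.toMonoidHom)
    refine ⟨ν.comp (QuotientGroup.mk' N), ?_, ?_⟩
    · intro a
      have h1 : e a = ⟨π a, a, rfl⟩ := rfl
      have h2 := DFunLike.congr_fun hν (e a)
      simp only [MonoidHom.comp_apply, MulEquiv.coe_toMonoidHom, MulEquiv.symm_apply_apply] at h2
      rw [← h2]
      rfl
    · intro x hx
      have h3 : (QuotientGroup.mk' N) x = 1 := (QuotientGroup.eq_one_iff x).2 hx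
      rw [MonoidHom.comp_apply, h3, map_one]
  intro x y hxy
  rw [hsum, hsum]
  refine Finset.sum_congr rfl fun κ _ => ?_
  obtain ⟨μ, hμ1, hμ2⟩ := hext κ
  have hg := mul_char (hf κ) μ⁻¹
  have hgP : Cst (fun x => f κ x * ((μ⁻¹ x : ℂˣ) : ℂ)) P := by
    intro a b hab
    have h1 : a = ((⟨a * b⁻¹, hab⟩ : P) : G) * b := by simp
    simp only
    rw [h1, hfP, map_mul, Units.val_mul, MonoidHom.inv_apply, hμ1]
    have h2 : (((κ ⟨a * b⁻¹, hab⟩)⁻¹ : ℂˣ) : ℂ) * ((κ ⟨a * b⁻¹, hab⟩ : ℂˣ) : ℂ) = 1 := by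
      rw [← Units.val_mul, inv_mul_cancel, Units.val_one]
    linear_combination (f κ b * ((μ⁻¹ b : ℂˣ) : ℂ)) * h2
  have hgN : ∀ x ∈ N, f κ x * ((μ⁻¹ x : ℂˣ) : ℂ) = f κ 1 * ((μ⁻¹ 1 : ℂˣ) : ℂ) := by
    intro x hx
    rw [MonoidHom.inv_apply, MonoidHom.inv_apply, hμ2 x hx, map_one, hfN κ x hx]
  have h1 := ih _ hg hgP hgN x y hxy
  simp only at h1
  have h2 : μ x = μ y := by
    have := hμ2 _ hxy
    rwa [map_mul, map_inv, mul_inv_eq_one] at this
  rw [MonoidHom.inv_apply, MonoidHom.inv_apply, h2] at h1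
  exact mul_right_cancel₀ (Units.ne_zero _) h1

/-- Climbing to a Sylow subgroup. -/
theorem climb [Finite G] (N : Subgroup G) [N.Normal] (hGN : ∀ a b : G, a * b * a⁻¹ * b⁻¹ ∈ N)
    (p : ℕ) [Fact p.Prime] (hno : ∀ P : Subgroup G, P.Normal → IsPGroup p P → P = ⊥)
    (ih : ∀ H : Subgroup G, H ≠ ⊤ → ∀ x ∈ H, ∀ y ∈ H, x * y⁻¹ ∈ N → θ x = θ y)
    (y : G) (hy : p ∣ orderOf y) :
    ∃ S : Sylow p G, ∃ v ∈ Subgroup.normalizer (S : Set G), v * y⁻¹ ∈ N ∧ θ v = θ y := by
  classical
  let F : Set (Subgroup G) := {T | IsPGroup p T ∧ T ≠ ⊥ ∧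
    ∃ v ∈ Subgroup.normalizer (T : Set G), v * y⁻¹ ∈ N ∧ θ v = θ y}
  have hne : F.Nonempty := by
    obtain ⟨k, hk⟩ := hy
    have hpos : 0 < orderOf y := orderOf_pos y
    have hk0 : k ≠ 0 := by
      rintro rfl
      rw [hk, mul_zero] at hpos
      exact lt_irrefl _ hpos
    have ho : orderOf (y ^ k) = p := by
      rw [orderOf_pow_of_dvd hk0 ⟨p, by rw [hk, mul_comm]⟩, hk,
        Nat.mul_div_cancel _ (Nat.pos_of_ne_zero hk0)]
    refine ⟨Subgroup.zpowers (y ^ k), ?_, ?_, y, ?_, ?_, rfl⟩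
    · apply IsPGroup.of_card (n := 1)
      rw [Nat.card_zpowers, ho, pow_one]
    · intro h
      rw [Subgroup.zpowers_eq_bot] at h
      rw [h, orderOf_one] at ho
      exact (Fact.out : p.Prime).one_lt.ne ho
    · rw [Subgroup.mem_normalizer_iff]
      have h1 : ∀ a ∈ Subgroup.zpowers (y ^ k), y * a * y⁻¹ = a := by
        rintro _ ⟨i, rfl⟩
        have : Commute y ((y ^ k) ^ i) := ((Commute.refl y).pow_right k).zpow_right i
        change y * (y ^ k) ^ i * y⁻¹ = (y ^ k) ^ i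
        rw [this.eq, mul_inv_cancel_right]
      intro a
      constructor
      · intro ha
        rw [h1 a ha]
        exact ha
      · intro ha
        have h2 := h1 _ ha
        have h3 : y * a * y⁻¹ = a := by
          have := mul_left_cancel (mul_right_cancel h2)
          exact this
        rwa [h3] at ha
    · rw [mul_inv_cancel]
      exact N.one_mem
  obtain ⟨T, hT⟩ := (Set.toFinite F).exists_maximal hne
  obtain ⟨hT1, hT2, v, hv, hvN, hvθ⟩ := hT.prop
  let N₁ : Subgroup G := Subgroup.normalizer (T : Set G)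
  have hN₁ : N₁ ≠ ⊤ := by
    intro h
    exact hT2 (hno T (Subgroup.normalizer_eq_top_iff.1 h) hT1)
  have hTN₁ : T ≤ N₁ := Subgroup.le_normalizer
  obtain ⟨Q, hQ⟩ := (hT1.comap_subtype (K := N₁)).exists_le_sylow
  let N' : Subgroup N₁ := N.subgroupOf N₁
  have hN' : N'.Normal := inferInstance
  have hnorm : ((Q : Subgroup N₁) ⊔ N').Normal := by
    refine ⟨fun n hn g => ?_⟩
    have h1 : g * n * g⁻¹ = (g * n * g⁻¹ * n⁻¹) * n := by group
    rw [h1]
    refine Subgroup.mul_mem _ (Subgroup.mem_sup_right ?_) hn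
    exact hGN g n
  have hfr := Sylow.normalizer_sup_eq_top' (N := (Q : Subgroup N₁) ⊔ N') Q le_sup_left
  rw [← sup_assoc, ← Q.coe_coe, sup_eq_left.2 (Subgroup.le_normalizer)] at hfr
  obtain ⟨a, ha, n, hn, han⟩ := Subgroup.mem_sup_of_normal_right.1
    (show (⟨v, hv⟩ : N₁) ∈ Subgroup.normalizer ((Q : Subgroup N₁) : Set N₁) ⊔ N' by
      rw [hfr]; exact Subgroup.mem_top _)
  let T₁ : Subgroup G := (Q : Subgroup N₁).map N₁.subtype
  have hT₁ : IsPGroup p T₁ := Q.2.map _
  have hle : T ≤ T₁ := by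
    intro t ht
    exact ⟨⟨t, hTN₁ ht⟩, hQ ht, rfl⟩
  have hv' : (v : G) = a * n := congrArg Subtype.val han.symm
  have haN : (a : G) * v⁻¹ ∈ N := by
    have h1 : (a : G) * v⁻¹ = a * (n : G)⁻¹ * (a : G)⁻¹ := by
      rw [hv']; group
    rw [h1]
    exact ‹N.Normal›.conj_mem _ (N.inv_mem hn) _
  have hT₁F : T₁ ∈ F := by
    refine ⟨hT₁, ?_, a, ?_, ?_, ?_⟩
    · intro h
      apply hT2
      rw [eq_bot_iff, ← h]
      exact hle
    · rw [Subgroup.mem_normalizer_iff] at ha ⊢
      intro x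
      constructor
      · rintro ⟨q, hq, rfl⟩
        exact ⟨a * q * a⁻¹, (ha q).1 hq, rfl⟩
      · rintro ⟨q, hq, hqx⟩
        refine ⟨a⁻¹ * q * a, (ha _).2 ?_, ?_⟩
        · have : a * (a⁻¹ * q * a) * a⁻¹ = q := by group
          rw [this]
          exact hq
        · have h1 : (q : G) = a * x * (a : G)⁻¹ := hqx
          change (a : G)⁻¹ * (q : G) * (a : G) = x
          rw [h1]
          group
    · have : (a : G) * y⁻¹ = (a * v⁻¹) * (v * y⁻¹) := by group
      rw [this]
      exact N.mul_mem haN hvN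
    · rw [← hvθ]
      exact ih N₁ hN₁ _ a.2 _ hv haN
  have hTT : T₁ ≤ T := hT.2 hT₁F hle
  have hcard : Nat.card T = p ^ (Nat.card N₁).factorization p := by
    rw [← Q.card_eq_multiplicity, le_antisymm hle hTT]
    exact Subgroup.card_map_of_injective N₁.subtype_injective
  obtain ⟨S, hS⟩ := hT1.exists_le_sylow
  have hnd : ¬ p ^ ((Nat.card N₁).factorization p + 1) ∣ Nat.card G := by
    intro hd
    exact Nat.pow_succ_factorization_not_dvd Nat.card_pos.ne' Fact.out
      (Sylow.prime_pow_dvd_card_normalizer hd hcard)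
  obtain ⟨m, hm⟩ := (IsPGroup.iff_card.1 S.2)
  have hmle : m ≤ (Nat.card N₁).factorization p := by
    by_contra hlt
    push Not at hlt
    apply hnd
    refine (pow_dvd_pow p hlt).trans ?_
    rw [← hm]
    exact Subgroup.card_subgroup_dvd_card _
  have hTS : T = S := by
    apply Subgroup.eq_of_le_of_card_ge hS
    rw [hm, hcard]
    exact Nat.pow_le_pow_right (Fact.out : p.Prime).pos hmle
  refine ⟨S, v, ?_, hvN, hvθ⟩
  rw [← S.coe_coe, ← hTS]
  exact hv

theorem kernel_aux (n : ℕ) : ∀ (G : Type) [Group G] [Finite G] (θ : G → ℂ) (_ : Heil θ)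
    (N : Subgroup G) [N.Normal], Nat.card G ≤ n → (∀ x ∈ N, θ x = θ 1) → Cst θ N := by
  induction n with
  | zero =>
    intro G _ _ θ _ N _ hn
    have : 0 < Nat.card G := Nat.card_pos
    omega
  | succ n ihn =>
    intro G _ _ θ h N _ hn hN
    -- proper subgroups
    have ih1 : ∀ H : Subgroup G, H ≠ ⊤ → ∀ x ∈ H, ∀ y ∈ H, x * y⁻¹ ∈ N → θ x = θ y := by
      intro H hH x hx y hy hxy
      have hc : Nat.card H < Nat.card G := by
        have h1 : H < ⊤ := lt_top_iff_ne_top.2 hH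
        have h2 := Set.Finite.card_lt_card (Set.toFinite ((⊤ : Subgroup G) : Set G)) h1
        have h3 : Nat.card ((⊤ : Subgroup G) : Set G) = Nat.card G := by
          rw [Subgroup.coe_top, Nat.card_univ]
        rw [h3] at h2
        exact h2
      have h1 := ihn H (fun x => θ x) (h.comp H.subtype) (N.subgroupOf H) (by omega)
        (fun z hz => hN z hz)
      exact h1 ⟨x, hx⟩ ⟨y, hy⟩ hxy
    -- quotients
    have ih2 : ∀ (M : Subgroup G) [M.Normal], M ≠ ⊥ → ∀ θ' : G → ℂ, Heil θ' → Cst θ' M →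
        (∀ x ∈ N, θ' x = θ' 1) → Cst θ' N := by
      intro M _ hM θ₁ h₁ hM₁ hN₁
      obtain ⟨θ', h2, h3⟩ := exists_quot h₁ M hM₁
      have hnor : (N.map (QuotientGroup.mk' M)).Normal :=
        Subgroup.Normal.map inferInstance _ (QuotientGroup.mk'_surjective _)
      refine cst_of_quot (M := M) h3 (ihn (G ⧸ M) θ' h2 _ ?_ (ker_map h3 hN₁))
      have h4 := Subgroup.card_eq_card_quotient_mul_card_subgroup M
      have h5 : 1 < Nat.card M := by
        rw [Finite.one_lt_card_iff_nontrivial]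
        exact (Subgroup.nontrivial_iff_ne_bot M).2 hM
      have h6 : 0 < Nat.card (G ⧸ M) := Nat.card_pos
      nlinarith
    intro x y hxy
    by_cases hy : Subgroup.zpowers y ⊔ N = ⊤
    swap
    · refine ih1 _ hy x ?_ y (Subgroup.mem_sup_left (Subgroup.mem_zpowers y)) hxy
      have : x = (x * y⁻¹) * y := by group
      rw [this]
      exact Subgroup.mul_mem _ (Subgroup.mem_sup_right hxy)
        (Subgroup.mem_sup_left (Subgroup.mem_zpowers y))
    -- the quotient is cyclic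
    have hcyc : ∀ a : G ⧸ N, a ∈ Subgroup.zpowers (y : G ⧸ N) := by
      intro a
      obtain ⟨a, rfl⟩ := QuotientGroup.mk'_surjective N a
      obtain ⟨b, hb, c, hc, hbc⟩ := Subgroup.mem_sup_of_normal_right.1
        (show a ∈ Subgroup.zpowers y ⊔ N by rw [hy]; exact Subgroup.mem_top _)
      obtain ⟨i, rfl⟩ := hb
      refine ⟨i, ?_⟩
      have h1 : (QuotientGroup.mk' N) c = 1 := (QuotientGroup.eq_one_iff c).2 hc
      rw [← hbc, map_mul, h1, mul_one]
      rfl
    have hGN : ∀ a b : G, a * b * a⁻¹ * b⁻¹ ∈ N := by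
      intro a b
      rw [← QuotientGroup.eq_one_iff]
      obtain ⟨i, hi⟩ := hcyc (a : G ⧸ N)
      obtain ⟨j, hj⟩ := hcyc (b : G ⧸ N)
      simp only at hi hj
      rw [QuotientGroup.mk_mul, QuotientGroup.mk_mul, QuotientGroup.mk_mul, QuotientGroup.mk_inv,
        QuotientGroup.mk_inv, ← hi, ← hj, ← zpow_add, add_comm, zpow_add]
      group
    by_cases hNt : N = ⊤
    · rw [hN x (by rw [hNt]; exact Subgroup.mem_top _), hN y (by rw [hNt]; exact Subgroup.mem_top _)]
    -- no normal subgroups of prime power order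
    by_cases hno : ∀ (p : ℕ) [Fact p.Prime] (P : Subgroup G), P.Normal → IsPGroup p P → P = ⊥
    swap
    · push Not at hno
      obtain ⟨p, hp, P, hPn, hPp, hPb⟩ := hno
      have hnil : Group.IsNilpotent P := hPp.isNilpotent
      have hsol : Group.IsSolvable P := inferInstance
      by_cases hPN : P ⊓ N = ⊥
      · refine central_case h N P ?_ hPN hGN (fun θ' h' hP' hN' => ih2 P hPb θ' h' hP' hN') hN
          x y hxy
        intro a ha b
        have h1 : a * b * a⁻¹ * b⁻¹ ∈ P ⊓ N := by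
          refine ⟨?_, hGN a b⟩
          have h2 : a * b * a⁻¹ * b⁻¹ = a * (b * a⁻¹ * b⁻¹) := by group
          rw [h2]
          exact P.mul_mem ha (hPn.conj_mem _ (P.inv_mem ha) b)
        rw [hPN, Subgroup.mem_bot] at h1
        have h3 : a * b = (a * b * a⁻¹ * b⁻¹) * (b * a) := by group
        rw [h3, h1, one_mul]
      · have hs2 : Group.IsSolvable (P ⊓ N : Subgroup G) :=
          Group.isSolvable_of_isSolvable_injective
            (Subgroup.inclusion_injective (inf_le_left : P ⊓ N ≤ P))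
        exact ih2 (P ⊓ N) hPN θ h
          (solv _ G θ h (P ⊓ N) le_rfl (fun z hz => hN z hz.2)) hN x y hxy
    -- choose a prime
    have hidx : Nat.card (G ⧸ N) ≠ 1 := by
      intro h1
      exact hNt (Subgroup.index_eq_one.1 h1)
    obtain ⟨p, hp, hpd⟩ := Nat.exists_prime_and_dvd hidx
    have hfp : Fact p.Prime := ⟨hp⟩
    have hord : ∀ z : G, (z : G ⧸ N) = (y : G ⧸ N) → p ∣ orderOf z := by
      intro z hz
      refine hpd.trans ?_
      have h1 : orderOf (z : G ⧸ N) = Nat.card (G ⧸ N) := by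
        rw [hz]
        exact orderOf_eq_card_of_forall_mem_zpowers hcyc
      rw [← h1]
      exact orderOf_map_dvd (QuotientGroup.mk' N) z
    have hxy' : (x : G ⧸ N) = (y : G ⧸ N) := by
      rw [← QuotientGroup.eq_one_iff, QuotientGroup.mk_mul, QuotientGroup.mk_inv,
        mul_inv_eq_one] at hxy
      exact hxy
    obtain ⟨S, v, hv, hvN, hvθ⟩ := climb N hGN p (fun P => hno p P) ih1 x (hord x hxy')
    obtain ⟨S', v', hv', hvN', hvθ'⟩ := climb N hGN p (fun P => hno p P) ih1 y (hord y rfl)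
    obtain ⟨g, hg⟩ := MulAction.exists_smul_eq G S S'
    have hS' : Subgroup.normalizer (S' : Set G) ≠ ⊤ := by
      intro h1
      rw [← S'.coe_coe, Subgroup.normalizer_eq_top_iff] at h1
      have h2 := hno p S' h1 S'.2
      exact S'.ne_bot_of_dvd_card ((hord y rfl).trans (orderOf_dvd_natCard y)) h2
    rw [← hvθ, ← hvθ', ← h.conj g v]
    refine ih1 _ hS' _ ?_ _ hv' ?_
    · rw [← Sylow.smul_eq_iff_mem_normalizer] at hv ⊢
      rw [← hg, smul_smul, inv_mul_cancel_right, mul_smul, hv]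
    · have h1 : g * v * g⁻¹ * v'⁻¹ = (g * v * g⁻¹ * v⁻¹) * (v * x⁻¹) * (x * y⁻¹) * (v' * y⁻¹)⁻¹ := by
        group
      rw [h1]
      exact N.mul_mem (N.mul_mem (N.mul_mem (hGN g v) hvN) hxy) (N.inv_mem hvN')

/-- **Kernel theorem**: a Heilbronn class function on a finite group which is constant on a normal
subgroup is constant on its cosets. -/
theorem kernel [Finite G] (h : Heil θ) (N : Subgroup G) [N.Normal] (hN : ∀ x ∈ N, θ x = θ 1) :
    Cst θ N := kernel_aux _ G θ h N le_rfl hN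

end Pool.Agent.H42.Hb
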